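import Pool.Agent.MP_856573_co.H74.Bas

/-! A triangle that is not a face splits a triangulation into two triangulations. -/

namespace Pool.Agent.MP_856573_co.H74

open Finset
open Pool.Agent.MP_31805c_co.H47 (Z2)
open Pool.Agent.MP_31805c_co.H47.FamAux (cob cob_mk)
open Pool.Agent.MP_31805c_co.H93 (Conn)

namespace SplitP

variable {V : Type} [Fintype V] [DecidableEq V] {G : SimpleGraph V} {D T K : Finset V}
  {F : Finset (Finset V)}

/-- `K` is a union of components of `D \ T`. -/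
structure Cl (G : SimpleGraph V) (D T K : Finset V) : Prop where
  sub : ∀ a ∈ K, a ∈ D ∧ a ∉ T
  cl : ∀ a ∈ K, ∀ b ∈ D, b ∉ T → G.Adj a b → b ∈ K

/-- The number of faces at `u`, `x` that meet `K`. -/
def cc (F : Finset (Finset V)) (K : Finset V) (u x : V) : ℕ :=
  ((F.filter fun f => ¬Disjoint f K).filter fun f => u ∈ f ∧ x ∈ f).card

omit [Fintype V] in
theorem cc_comm (u x : V) : cc F K u x = cc F K x u := by simp only [cc, and_comm]

omit [Fintype V] in
theorem inK (h : Tri G D F) (hK : Cl G D T K) {f : Finset V} (hf : f ∈ F) (hd : ¬Disjoint f K)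
    {u : V} (hu : u ∈ f) (hT : u ∉ T) : u ∈ K := by
  obtain ⟨k, h1, h2⟩ := not_disjoint_iff.1 hd
  by_cases e : k = u
  · exact e ▸ h2
  · exact hK.cl k h2 u ((h.face f hf).1 hu) hT ((h.face f hf).2.1 h1 hu e)

omit [Fintype V] in
theorem inT (h : Tri G D F) (hK : Cl G D T K) {f f' : Finset V} (hf : f ∈ F) (hd : ¬Disjoint f K)
    (hd' : Disjoint f' K) {u : V} (hu : u ∈ f) (hu' : u ∈ f') : u ∈ T := by
  by_contra hT
  exact disjoint_left.1 hd' hu' (inK h hK hf hd hu hT)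

omit [Fintype V] in
theorem full {u x : V} (hu : u ∈ K ∨ x ∈ K) :
    ((F.filter fun f => ¬Disjoint f K).filter fun f => u ∈ f ∧ x ∈ f) =
      F.filter fun f => u ∈ f ∧ x ∈ f := by
  rw [filter_filter]
  refine filter_congr fun f _ => and_iff_right_of_imp fun g => not_disjoint_iff.2 ?_
  exact hu.elim (fun a => ⟨u, g.1, a⟩) fun a => ⟨x, g.2, a⟩

omit [Fintype V] in
theorem cc_even (h : Tri G D F) (hK : Cl G D T K) {u x : V} (hne : x ≠ u) (hx : x ∉ T) :
    Even (cc F K u x) := by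
  rcases ((F.filter fun f => ¬Disjoint f K).filter fun f => u ∈ f ∧ x ∈ f).eq_empty_or_nonempty
    with e | ⟨f, hf⟩
  · simp [cc, e]
  · simp only [mem_filter] at hf
    have h3 := h.face f hf.1.1
    rw [cc, full (Or.inr (inK h hK hf.1.1 hf.1.2 hf.2.2 hx)),
      h.two u (h3.1 hf.2.1) x (h3.1 hf.2.2) (h3.2.1 hf.2.1 hf.2.2 hne.symm)]
    exact even_two

omit [Fintype V] in
theorem three {u v w : V} (hT : T.card = 3) (hu : u ∈ T) (hv : v ∈ T) (hw : w ∈ T) (h1 : u ≠ v)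
    (h2 : u ≠ w) (h3 : v ≠ w) : T = {u, v, w} := by
  refine (eq_of_subset_of_card_le (fun x hx => ?_) ?_).symm
  · simp only [mem_insert, mem_singleton] at hx
    rcases hx with rfl | rfl | rfl <;> assumption
  · rw [hT, card_eq_three.2 ⟨u, v, w, h1, h2, h3, rfl⟩]

omit [Fintype V] in
theorem cc_step (h : Tri G D F) (hT : T3 G D T) (hK : Cl G D T K) {u v w : V} (hu : u ∈ T)
    (hv : v ∈ T) (hw : w ∈ T) (h1 : v ≠ u) (h2 : w ≠ u) (ho : Odd (cc F K u v)) :
    Odd (cc F K u w) := by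
  by_cases h3 : v = w
  · exact h3 ▸ ho
  have e : T.erase u = {v, w} := by
    rw [three hT.2.2 hu hv hw h1.symm h2.symm h3, erase_insert (by simp [h1.symm, h2.symm])]
  have s : ∑ x ∈ D.erase u, cc F K u x =
      ∑ f ∈ (F.filter fun f => ¬Disjoint f K).filter (u ∈ ·), 2 := by
    have : ∀ x, cc F K u x =
        ∑ f ∈ (F.filter fun f => ¬Disjoint f K).filter (u ∈ ·), if x ∈ f then 1 else 0 := by
      intro x
      rw [cc, ← card_filter, filter_filter (u ∈ ·)]
    simp only [this]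
    rw [sum_comm]
    refine sum_congr rfl fun f hf => ?_
    simp only [mem_filter] at hf
    have h4 := h.face f hf.1.1
    rw [← card_filter, filter_erase, filter_mem_eq_inter, inter_eq_right.2 h4.1,
      card_erase_of_mem hf.2, h4.2.2]
  have ev : Even (∑ x ∈ D.erase u, cc F K u x) := by
    rw [s, sum_const, smul_eq_mul]
    exact even_two.mul_left _
  rw [← sum_sdiff (erase_subset_erase u hT.1), e, sum_pair h3] at ev
  have e2 : Even (∑ x ∈ D.erase u \ {v, w}, cc F K u x) := even_sum _ fun x hx => by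
    rw [← e] at hx
    simp only [mem_sdiff, mem_erase] at hx
    exact cc_even h hK hx.1.1 fun g => hx.2 ⟨hx.1.1, g⟩
  rw [Nat.even_iff] at ev e2
  rw [Nat.odd_iff] at ho ⊢
  omega

omit [Fintype V] in
theorem cc_le (h : Tri G D F) (hT : T3 G D T) {u v : V} (hu : u ∈ T) (hv : v ∈ T) (h1 : u ≠ v) :
    cc F K u v ≤ 2 := by
  rw [← h.two u (hT.1 hu) v (hT.1 hv) (hT.2.1 hu hv h1)]
  exact card_le_card (filter_subset_filter _ (filter_subset _ _))

theorem cc_one (tb : StmtTB) (h : Tri G D F) (hT : T3 G D T) (hK : Cl G D T K) (hne : K.Nonempty)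
    {g : Finset V} (hg : g ∈ F) (hd : Disjoint g K) {u v : V} (hu : u ∈ T) (hv : v ∈ T)
    (h1 : u ≠ v) : cc F K u v = 1 := by
  obtain ⟨k, hk⟩ := hne
  obtain ⟨f, hf⟩ := card_pos.1 (lt_of_lt_of_le (by norm_num) (tb.deg V G D F h k (hK.sub k hk).1).1)
  rw [mem_filter] at hf
  have ex : ∃ a ∈ T, ∃ b ∈ T, a ≠ b ∧ Odd (cc F K a b) := by
    by_contra hn
    refine tb.dc V G D F h {f | ¬Disjoint f K} ?_ f hf.1 g hg (not_disjoint_iff.2 ⟨k, hf.2, hk⟩) hd
    rintro f1 d1 f2 m2 m1 ⟨a, b, hab, a1, b1, a2, b2⟩ d2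
    have ha := inT h hK m1 d1 d2 a1 a2
    have hb := inT h hK m1 d1 d2 b1 b2
    refine hn ⟨a, ha, b, hb, hab, ?_⟩
    have l1 : 0 < cc F K a b := card_pos.2 ⟨f1, by simp only [mem_filter]; exact ⟨⟨m1, d1⟩, a1, b1⟩⟩
    have l2 : cc F K a b < 2 := by
      rw [← h.two a (hT.1 ha) b (hT.1 hb) (hT.2.1 ha hb hab)]
      refine card_lt_card ⟨filter_subset_filter _ (filter_subset _ _), fun s => ?_⟩
      exact (mem_filter.1 (mem_filter.1 (s (mem_filter.2 ⟨m2, a2, b2⟩))).1).2 d2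
    rw [show cc F K a b = 1 by omega]
    exact odd_one
  obtain ⟨a, ha, b, hb, hab, ho⟩ := ex
  have ho' : Odd (cc F K u v) := by
    by_cases e : u = a
    · exact cc_step h hT hK hu hb hv (e ▸ hab.symm) h1.symm (e ▸ ho)
    · refine cc_step h hT hK hu ha hv (Ne.symm e) h1.symm ?_
      rw [cc_comm]
      exact cc_step h hT hK ha hb hu hab.symm e ho
  have := cc_le (K := K) h hT hu hv h1
  rw [Nat.odd_iff] at ho'
  omega

theorem side (tb : StmtTB) (h : Tri G D F) (hT : T3 G D T) (hF : T ∉ F) (hK : Cl G D T K)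
    (hne : K.Nonempty) {g : Finset V} (hg : g ∈ F) (hd : Disjoint g K) :
    Tri G (T ∪ K) (insert T (F.filter fun f => ¬Disjoint f K)) := by
  have one := fun u v hu hv h1 => cc_one tb h hT hK hne hg hd (u := u) (v := v) hu hv h1
  have sub : T ∪ K ⊆ D := union_subset hT.1 fun a ha => (hK.sub a ha).1
  have fs : ∀ f ∈ F, ¬Disjoint f K → f ⊆ T ∪ K := fun f hf d x hx =>
    mem_union.2 (or_iff_not_imp_left.2 (inK h hK hf d hx))
  obtain ⟨t, ht⟩ : T.Nonempty := card_pos.1 (by rw [hT.2.2]; norm_num)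
  refine ⟨fun f hf => ?_, fun u hu v hv a => ?_, fun v X hX => ?_, ?_, ?_, fun a ha => ?_⟩
  · rcases mem_insert.1 hf with rfl | hf
    · exact ⟨subset_union_left, hT.2⟩
    · rw [mem_filter] at hf
      exact ⟨fs f hf.1 hf.2, (h.face f hf.1).2⟩
  · rw [filter_insert]
    split_ifs with c
    · rw [card_insert_of_notMem fun m => hF (mem_filter.1 (mem_filter.1 m).1).1]
      exact congrArg (· + 1) (one u v c.1 c.2 a.ne)
    · rw [full, h.two u (sub hu) v (sub hv) a]
      rw [mem_union] at hu hv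
      tauto
  · have key := h.lc v {f | (if Disjoint f K then T else f) ∈ X} (by
      rintro f1 x1 f2 m2 m1 v1 v2 ⟨w, hw, w1, w2⟩
      simp only [Set.mem_ofPred_eq] at x1 ⊢
      split_ifs at x1 ⊢ with d1 d2 d2
      · exact x1
      · exact hX f1 x1 T (mem_insert_self _ _) (mem_insert_of_mem (mem_filter.2 ⟨m1, d2⟩)) v1
          (inT h hK m1 d2 d1 v1 v2) ⟨w, hw, w1, inT h hK m1 d2 d1 w1 w2⟩
      · exact hX T x1 f2 (mem_insert_of_mem (mem_filter.2 ⟨m2, d1⟩)) (mem_insert_self _ _)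
          (inT h hK m2 d1 d2 v2 v1) v2 ⟨w, hw, inT h hK m2 d1 d2 w2 w1, w2⟩
      · exact hX f1 x1 f2 (mem_insert_of_mem (mem_filter.2 ⟨m2, d1⟩))
          (mem_insert_of_mem (mem_filter.2 ⟨m1, d2⟩)) v1 v2 ⟨w, hw, w1, w2⟩)
    have rep : ∀ f ∈ insert T (F.filter fun f => ¬Disjoint f K), v ∈ f →
        ∃ f' ∈ F, v ∈ f' ∧ (if Disjoint f' K then T else f') = f := by
      intro f hf hv
      rcases mem_insert.1 hf with rfl | hf
      · obtain ⟨w, hw, hwv⟩ := exists_mem_ne (show 1 < f.card by rw [hT.2.2]; norm_num) v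
        have l : cc F K v w < (F.filter fun f => v ∈ f ∧ w ∈ f).card := by
          rw [one v w hv hw hwv.symm, h.two v (hT.1 hv) w (hT.1 hw) (hT.2.1 hv hw hwv.symm)]
          norm_num
        obtain ⟨f', a, b⟩ := exists_mem_notMem_of_card_lt_card l
        simp only [mem_filter] at a b
        exact ⟨f', a.1, a.2.1, if_pos (by tauto)⟩
      · rw [mem_filter] at hf
        exact ⟨f, hf.1, hv, if_neg hf.2⟩
    intro f hf f' hf' hv hv' hx
    obtain ⟨g1, a1, b1, rfl⟩ := rep f hf hv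
    obtain ⟨g2, a2, b2, rfl⟩ := rep f' hf' hv'
    exact key g1 a1 g2 a2 b1 b2 hx
  · have cT : ∀ x ∈ T, Conn G ((T ∪ K : Finset V) : Set V) x t := fun x hx => by
      by_cases e : x = t
      · exact e ▸ Conn.refl _ _
      · exact Conn.adj (hT.2.1 hx ht e) (mem_union_left _ hx) (mem_union_left _ ht)
    refine cn_of t fun x hx => (mem_union.1 hx).elim (cT x) fun hx => ?_
    obtain ⟨a, b, c1, -, -, c2, c3⟩ :=
      conn_exit (X := (T : Set V)) (h.conn x (hK.sub x hx).1 t (hT.1 ht)) (hK.sub x hx).2 ht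
    have c4 : Conn G (K : Set V) x a :=
      conn_closed (fun a ha b hb hab => hK.cl a ha b hb.1 hb.2 hab) hx c1
    exact (c4.mono fun y hy => mem_union_right _ hy).trans ((Conn.adj c3
      (mem_union_right _ (c4.mem hx)) (mem_union_left _ c2)).trans (cT b c2))
  · rw [card_union_of_disjoint (disjoint_right.2 fun a ha => (hK.sub a ha).2), hT.2.2]
    have := card_pos.2 hne
    omega
  · classical
    have z : ∀ x y w : Z2, x + y + w = 0 → w = x + y := by decide
    have p0 : ∀ u ∈ T, ∀ v ∈ T, u ≠ v →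
        a s(u, v) = cob (fun x => if x = t then 0 else a s(t, x)) s(u, v) := by
      intro u hu v hv huv
      rw [cob_mk]
      split_ifs with c1 c2 c2
      · exact absurd (c1.trans c2.symm) huv
      · rw [c1, zero_add]
      · rw [c2, add_zero, Sym2.eq_swap]
      · exact z _ _ _ (ha t u v (three hT.2.2 ht hu hv (Ne.symm c1) (Ne.symm c2) huv ▸
          mem_insert_self _ _))
    obtain ⟨p, hp⟩ := h.span (fun e => if ∀ x ∈ e, x ∈ T ∪ K then a e else
      cob (fun x => if x = t then 0 else a s(t, x)) e) fun u v w hf => by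
        simp only [Sym2.ball]
        by_cases d : Disjoint ({u, v, w} : Finset V) K
        · have e : ∀ x ∈ ({u, v, w} : Finset V), ∀ y ∈ ({u, v, w} : Finset V), x ≠ y →
              (if x ∈ T ∪ K ∧ y ∈ T ∪ K then a s(x, y) else
                cob (fun x => if x = t then 0 else a s(t, x)) s(x, y)) =
                cob (fun x => if x = t then 0 else a s(t, x)) s(x, y) := by
            intro x hx y hy hxy
            split_ifs with c
            · exact p0 x ((mem_union.1 c.1).resolve_right (disjoint_left.1 d hx)) y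
                ((mem_union.1 c.2).resolve_right (disjoint_left.1 d hy)) hxy
            · rfl
          obtain ⟨a1, a2, a3⟩ := SimpleGraph.is3Clique_triple_iff.1 (h.face _ hf).2
          rw [e u (by simp) v (by simp) a1.ne, e u (by simp) w (by simp) a2.ne,
            e v (by simp) w (by simp) a3.ne, cob_mk, cob_mk, cob_mk]
          exact (by decide : ∀ x y w : Z2, x + y + (x + w) + (y + w) = 0) _ _ _
        · have s := fs _ hf d
          have hu := s (show u ∈ _ by simp)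
          have hv := s (show v ∈ _ by simp)
          have hw := s (show w ∈ _ by simp)
          rw [if_pos ⟨hu, hv⟩, if_pos ⟨hu, hw⟩, if_pos ⟨hv, hw⟩]
          exact ha u v w (mem_insert_of_mem (mem_filter.2 ⟨hf, d⟩))
    refine ⟨p, fun u hu v hv huv => ?_⟩
    have := hp u (sub hu) v (sub hv) huv
    simp only [Sym2.ball] at this
    rwa [if_pos ⟨hu, hv⟩] at this

variable {T0 : Finset V}

omit [Fintype V] in
theorem mem_inn {v : V} : v ∈ Inn G D T0 T ↔
    v ∈ D ∧ v ∉ T ∧ ∀ ρ ∈ T0, ρ ∉ T → ¬Conn G ((D : Set V) \ T) v ρ := by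
  simp only [Inn, mem_filter]

omit [Fintype V] in
theorem cl_inn : Cl G D T (Inn G D T0 T) :=
  ⟨fun _ ha => ⟨(mem_inn.1 ha).1, (mem_inn.1 ha).2.1⟩, fun _ ha _ hb hb' hab =>
    mem_inn.2 ⟨hb, hb', fun ρ h1 h2 c => (mem_inn.1 ha).2.2 ρ h1 h2
      (Conn.trans (Conn.adj hab ⟨(mem_inn.1 ha).1, (mem_inn.1 ha).2.1⟩ ⟨hb, hb'⟩) c)⟩⟩

omit [Fintype V] in
theorem Cl.compl (hK : Cl G D T K) : Cl G D T ((D \ T) \ K) :=
  ⟨fun _ ha => mem_sdiff.1 (mem_sdiff.1 ha).1, fun a ha b hb hb' hab =>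
    mem_sdiff.2 ⟨mem_sdiff.2 ⟨hb, hb'⟩, fun m => (mem_sdiff.1 ha).2
      (hK.cl b m a (mem_sdiff.1 (mem_sdiff.1 ha).1).1 (mem_sdiff.1 (mem_sdiff.1 ha).1).2 hab.symm)⟩⟩

omit [Fintype V] in
theorem root_disj : Disjoint T0 (Inn G D T0 T) :=
  disjoint_left.2 fun ρ h1 h2 => (mem_inn.1 h2).2.2 ρ h1 (mem_inn.1 h2).2.1 (Conn.refl _ _)

omit [Fintype V] in
theorem off (h : Tri G D F) (hT : T3 G D T) {f : Finset V} (hf : f ∈ F) (hne : T ≠ f)
    (hd : Disjoint f K) : ¬Disjoint f ((D \ T) \ K) := by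
  obtain ⟨x, h1, h2⟩ : ∃ x ∈ f, x ∉ T := by
    by_contra! s
    exact hne (eq_of_subset_of_card_le s (by rw [hT.2.2, (h.face f hf).2.2])).symm
  exact not_disjoint_iff.2 ⟨x, h1, mem_sdiff.2 ⟨mem_sdiff.2 ⟨(h.face f hf).1 h1, h2⟩,
    disjoint_left.1 hd h1⟩⟩

omit [Fintype V] in
theorem off' (h : Tri G D F) (hK : Cl G D T K) {f : Finset V} (hf : f ∈ F) (hd : ¬Disjoint f K) :
    Disjoint f ((D \ T) \ K) := disjoint_left.2 fun _ h1 h2 =>
  (mem_sdiff.1 h2).2 (inK h hK hf hd h1 (mem_sdiff.1 (mem_sdiff.1 h2).1).2)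

omit [Fintype V] in
theorem third (h : Tri G D F) {f : Finset V} (hf : f ∈ F) {u v : V} (hu : u ∈ f) (hv : v ∈ f)
    (huv : u ≠ v) : ∃ x, x ≠ u ∧ x ≠ v ∧ f = {u, v, x} := by
  have c := (h.face f hf).2.2
  obtain ⟨x, h1, h2⟩ := exists_mem_notMem_of_card_lt_card (s := {u, v}) (t := f)
    (by rw [card_pair huv, c]; norm_num)
  simp only [mem_insert, mem_singleton, not_or] at h2
  exact ⟨x, h2.1, h2.2, three c hu hv h1 huv (Ne.symm h2.1) (Ne.symm h2.2)⟩

theorem inn_ne (tb : StmtTB) (h : Tri G D F) (h0 : T0 ∈ F) (hT : T3 G D T) (hF : T ∉ F) :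
    (Inn G D T0 T).Nonempty := by
  obtain ⟨u, v, w, huv, -, -, rfl⟩ := card_eq_three.1 hT.2.2
  obtain ⟨f, f', hff, e⟩ := card_eq_two.1 (h.two u (hT.1 (by simp)) v (hT.1 (by simp))
    (hT.2.1 (by simp) (by simp) huv))
  have m1 := mem_filter.1 (e.ge (mem_insert_self _ _))
  have m2 := mem_filter.1 (e.ge (mem_insert_of_mem (mem_singleton_self _)))
  obtain ⟨x, x1, x2, rfl⟩ := third h m1.1 m1.2.1 m1.2.2 huv
  obtain ⟨y, y1, y2, rfl⟩ := third h m2.1 m2.2.1 m2.2.2 huv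
  by_contra hn
  have r : ∀ z, z ≠ u → z ≠ v → ({u, v, z} : Finset V) ∈ F → ∃ ρ ∈ T0, ρ ∉ ({u, v, w} : Finset V) ∧
      Conn G ((D : Set V) \ ({u, v, w} : Finset V)) z ρ := by
    intro z z1 z2 hz
    by_contra! c
    refine hn ⟨z, mem_inn.2 ⟨(h.face _ hz).1 (by simp), ?_, c⟩⟩
    simp only [mem_insert, mem_singleton, not_or]
    exact ⟨z1, z2, fun g => hF (g ▸ hz)⟩
  obtain ⟨ρ, a1, a2, a3⟩ := r x x1 x2 m1.1
  obtain ⟨ρ', b1, b2, b3⟩ := r y y1 y2 m2.1
  refine tb.tsep V G D F h u v w x y hT hF m1.1 m2.1 (fun g => hff (by rw [g])) ?_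
  rw [show ({u, v, w} : Set V) = ({u, v, w} : Finset V) by simp]
  refine a3.trans (Conn.trans ?_ b3.symm)
  by_cases g : ρ = ρ'
  · exact g ▸ Conn.refl _ _
  · exact Conn.adj ((h.face _ h0).2.1 a1 b1 g) ⟨(h.face _ h0).1 a1, a2⟩ ⟨(h.face _ h0).1 b1, b2⟩

end SplitP

open SplitP in
theorem split (tb : StmtTB) : StmtSPLIT := by
  refine ⟨fun V _ _ G D F T0 T h h0 hT hne => ⟨fun hF => ?_, fun e => ?_⟩,
    fun V _ _ G D F T0 T h h0 hT hF => side tb h hT hF cl_inn (inn_ne tb h h0 hT hF) h0 root_disj,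
    fun V _ _ G D F T0 T h h0 hT hF => ?_⟩
  · by_contra hn
    obtain ⟨u, hu, v, hv, huv⟩ := one_lt_card.1 (show 1 < T.card by rw [hT.2.2]; norm_num)
    obtain ⟨k, -, hk⟩ := not_disjoint_iff.1 (off h hT h0 hne (root_disj (G := G) (D := D) (T := T)))
    have d1 : Disjoint T (Inn G D T0 T) := disjoint_right.2 fun a ha => (cl_inn.sub a ha).2
    have d2 : Disjoint T ((D \ T) \ Inn G D T0 T) :=
      disjoint_right.2 fun a ha => (cl_inn.compl.sub a ha).2
    obtain ⟨f, hf⟩ := card_pos.1 ((cc_one tb h hT cl_inn (nonempty_iff_ne_empty.2 hn) hF d1 hu hv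
      huv).symm ▸ one_pos)
    obtain ⟨f', hf'⟩ := card_pos.1 ((cc_one tb h hT cl_inn.compl ⟨k, hk⟩ hF d2 hu hv huv).symm ▸
      one_pos)
    simp only [mem_filter] at hf hf'
    have : 2 < (F.filter fun f => u ∈ f ∧ v ∈ f).card :=
      two_lt_card_iff.2 ⟨T, f, f', mem_filter.2 ⟨hF, hu, hv⟩, mem_filter.2 ⟨hf.1.1, hf.2⟩,
        mem_filter.2 ⟨hf'.1.1, hf'.2⟩, fun g => hf.1.2 (by rw [← g]; exact d1),
        fun g => hf'.1.2 (by rw [← g]; exact d2),
        fun g => hf'.1.2 (by rw [← g]; exact off' h cl_inn hf.1.1 hf.1.2)⟩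
    rw [h.two u (hT.1 hu) v (hT.1 hv) (hT.2.1 hu hv huv)] at this
    exact lt_irrefl _ this
  · by_contra hF
    exact (inn_ne tb h h0 hT hF).ne_empty e
  · obtain ⟨k, hk⟩ := inn_ne tb h h0 hT hF
    obtain ⟨f, hf⟩ := card_pos.1 (lt_of_lt_of_le (by norm_num)
      (tb.deg V G D F h k (cl_inn.sub k hk).1).1)
    rw [mem_filter] at hf
    obtain ⟨k', -, hk'⟩ := not_disjoint_iff.1
      (off h hT h0 (fun g => hF (g ▸ h0)) (root_disj (G := G) (D := D) (T := T)))
    have := side tb h hT hF cl_inn.compl ⟨k', hk'⟩ hf.1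
      (off' h cl_inn hf.1 (not_disjoint_iff.2 ⟨k, hf.2, hk⟩))
    convert this using 2
    · ext x
      have a := @hT.1 x
      have b := (cl_inn (G := G) (D := D) (T := T) (T0 := T0)).sub x
      simp only [mem_sdiff, mem_union]
      tauto
    · exact filter_congr fun g hg => ⟨off h hT hg fun e => hF (e ▸ hg),
        fun a => not_not.1 fun b => a (off' h cl_inn hg b)⟩

end Pool.Agent.MP_856573_co.H74
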